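import Pool.Agent.Helper88.SlabFourier
import Pool.Agent.Helper88.SlabLarge

/-!
# Two explicit coordinates (MP_66ebcc_gt, module FA-F4)
-/

set_option autoImplicit false

open MeasureTheory Set Real
open Pool.Agent.Helper88.Slab

namespace Pool.Agent.Helper89.FA

namespace ProbTwo

/-- The integral of a positive part. -/
theorem integral_pos_part_le {a b : ℝ} (hab : a ≤ b) :
    ∫ v in a..b, max 0 v ≤ (max 0 b) ^ 2 / 2 := by
  have cont : Continuous fun y : ℝ => max 0 y := by fun_prop
  rcases le_total b 0 with h | h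
  · have : ∫ v in a..b, max 0 v = ∫ v in a..b, (0 : ℝ) := by
      apply intervalIntegral.integral_congr
      intro t ht
      rw [uIcc_of_le hab] at ht
      simp only
      rw [max_eq_left]
      linarith [ht.2]
    rw [this]
    simp only [intervalIntegral.integral_const, smul_eq_mul, mul_zero]
    positivity
  · rw [max_eq_right h]
    rcases le_total 0 a with h2 | h2
    · have : ∫ v in a..b, max 0 v = ∫ v in a..b, v := by
        apply intervalIntegral.integral_congr
        intro t ht
        rw [uIcc_of_le hab] at ht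
        simp only
        rw [max_eq_right]
        linarith [ht.1]
      rw [this, integral_id]
      nlinarith [sq_nonneg a]
    · rw [← intervalIntegral.integral_add_adjacent_intervals (b := 0)
        (cont.intervalIntegrable _ _) (cont.intervalIntegrable _ _)]
      have h3 : ∫ v in a..0, max 0 v = ∫ v in a..0, (0 : ℝ) := by
        apply intervalIntegral.integral_congr
        intro t ht
        rw [uIcc_of_le h2] at ht
        simp only
        rw [max_eq_left]
        linarith [ht.2]
      have h4 : ∫ v in (0 : ℝ)..b, max 0 v = ∫ v in (0 : ℝ)..b, v := by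
        apply intervalIntegral.integral_congr
        intro t ht
        rw [uIcc_of_le h] at ht
        simp only
        rw [max_eq_right]
        linarith [ht.1]
      rw [h3, h4, integral_id]
      simp

/-- Average of a positive part. -/
theorem A_pos_part {q c : ℝ} (hq : 0 < q) (y : ℝ) :
    A q (fun x => max 0 (c + x)) y ≤ (max 0 (c + y + q)) ^ 2 / (4 * q) := by
  rw [A_eq]
  have h1 : ∫ u in (-1 : ℝ)..1, max 0 (c + (q * u + y)) =
      q⁻¹ • ∫ v in (q * (-1) + (c + y))..(q * 1 + (c + y)), max 0 v := by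
    rw [← intervalIntegral.integral_comp_mul_add (fun v => max 0 v) hq.ne']
    apply intervalIntegral.integral_congr
    intro u _
    simp only
    congr 1
    ring
  rw [h1]
  have h2 := integral_pos_part_le (a := q * (-1) + (c + y)) (b := q * 1 + (c + y)) (by linarith)
  rw [show q * 1 + (c + y) = c + y + q by ring] at h2 ⊢
  rw [smul_eq_mul]
  calc 1 / 2 * (q⁻¹ * ∫ v in (q * (-1) + (c + y))..(c + y + q), max 0 v)
      ≤ 1 / 2 * (q⁻¹ * ((max 0 (c + y + q)) ^ 2 / 2)) := by gcongr
    _ = _ := by field_simp; ring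

theorem A_pos_part' {q c : ℝ} (hq : 0 < q) (y : ℝ) :
    A q (fun x => max 0 (c - x)) y ≤ (max 0 (c - y + q)) ^ 2 / (4 * q) := by
  have h1 := A_pos_part (c := c) hq (-y)
  have h2 : A q (fun x => max 0 (c - x)) y = A q (fun x => max 0 (c + x)) (-y) := by
    rw [← A_neg_b, A, A]
    congr 1
    ext u
    congr 1
    ring
  rw [h2]
  rw [show c - y + q = c + -y + q by ring]
  exact h1

/-- The one-coordinate bound. -/
theorem A_ind_ge {p t : ℝ} (hp : 0 < p) (ht : 0 ≤ t) (y : ℝ) :
    1 - (max 0 (p - t + y) + max 0 (p - t - y)) / (2 * p) ≤ A p (ind t) y := by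
  rw [A_ind hp ht, le_div_iff₀ (by positivity), sub_mul, div_mul_cancel₀ _ (by positivity), one_mul]
  unfold clamp
  have h1 : (y + p) - max 0 (p - t + y) ≤ max (-t) (min t (y + p)) := by
    apply le_max_of_le_right
    apply le_min
    · linarith [le_max_right 0 (p - t + y)]
    · linarith [le_max_left 0 (p - t + y)]
  have h2 : max (-t) (min t (y - p)) ≤ (y - p) + max 0 (p - t - y) := by
    apply max_le
    · linarith [le_max_right 0 (p - t - y)]
    · exact (min_le_right _ _).trans (by linarith [le_max_left 0 (p - t - y)])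
  linarith

/-- The function bounding the defect. -/
noncomputable def F (d y : ℝ) : ℝ := (max 0 (d + y)) ^ 2 + (max 0 (d - y)) ^ 2

theorem F_cont (d : ℝ) : Continuous (F d) := by unfold F; fun_prop

/-- The two-coordinate bound. -/
theorem two_ge {p q t : ℝ} (hp : 0 < p) (hq : 0 < q) (ht : 0 ≤ t) (y : ℝ) :
    1 - F (p + q - t) y / (8 * (p * q)) ≤ A q (A p (ind t)) y := by
  have c1 : Continuous fun x : ℝ => max 0 (p - t + x) := by fun_prop
  have c2 : Continuous fun x : ℝ => max 0 (p - t - x) := by fun_prop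
  have h1 : A q (fun x => 1 - (max 0 (p - t + x) + max 0 (p - t - x)) / (2 * p)) y ≤
      A q (A p (ind t)) y := by
    rw [A_eq, A_eq]
    apply mul_le_mul_of_nonneg_left _ (by norm_num)
    apply intervalIntegral.integral_mono_on (by norm_num)
    · exact Continuous.intervalIntegrable (by fun_prop) _ _
    · exact ((A_ind_cont hp ht).comp (by fun_prop)).intervalIntegrable _ _
    · intro u _
      exact A_ind_ge hp ht _
  refine le_trans ?_ h1
  have h2 : A q (fun x => 1 - (max 0 (p - t + x) + max 0 (p - t - x)) / (2 * p)) y =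
      1 - (A q (fun x => max 0 (p - t + x)) y + A q (fun x => max 0 (p - t - x)) y) / (2 * p) := by
    rw [A_eq, A_eq, A_eq, intervalIntegral.integral_sub, intervalIntegral.integral_div,
      intervalIntegral.integral_add]
    · simp only [intervalIntegral.integral_const, smul_eq_mul]
      ring
    all_goals exact Continuous.intervalIntegrable (by fun_prop) _ _
  rw [h2]
  have h3 := A_pos_part (c := p - t) hq y
  have h4 := A_pos_part' (c := p - t) hq y
  have h5 : (A q (fun x => max 0 (p - t + x)) y + A q (fun x => max 0 (p - t - x)) y) / (2 * p) ≤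
      F (p + q - t) y / (8 * (p * q)) := by
    calc _ ≤ ((max 0 (p - t + y + q)) ^ 2 / (4 * q) + (max 0 (p - t - y + q)) ^ 2 / (4 * q)) /
          (2 * p) := by gcongr
      _ = _ := by
          unfold F
          rw [show p - t + y + q = p + q - t + y by ring, show p - t - y + q = p + q - t - y by ring]
          field_simp
          ring
  linarith

/-- The integral of `F`. -/
theorem integral_F {d v : ℝ} (hd : 0 ≤ d) (hv : 0 ≤ v) :
    ∫ y in (0 : ℝ)..v, F d y ≤ ((d + v) ^ 3 - (max 0 (d - v)) ^ 3) / 3 := by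
  have c1 : Continuous fun x : ℝ => (max 0 (d + x)) ^ 2 := by fun_prop
  have c2 : Continuous fun x : ℝ => (max 0 (d - x)) ^ 2 := by fun_prop
  have h1 : ∫ y in (0 : ℝ)..v, F d y = (∫ y in (0 : ℝ)..v, (max 0 (d + y)) ^ 2) +
      ∫ y in (0 : ℝ)..v, (max 0 (d - y)) ^ 2 := by
    unfold F
    rw [intervalIntegral.integral_add (c1.intervalIntegrable _ _) (c2.intervalIntegrable _ _)]
  have h2 : ∫ y in (0 : ℝ)..v, (max 0 (d + y)) ^ 2 = ((d + v) ^ 3 - d ^ 3) / 3 := by
    have h3 : ∫ y in (0 : ℝ)..v, (max 0 (d + y)) ^ 2 = ∫ y in (0 : ℝ)..v, (d + y) ^ 2 := by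
      apply intervalIntegral.integral_congr
      intro t ht
      rw [uIcc_of_le hv] at ht
      simp only
      rw [max_eq_right (by linarith [ht.1])]
    rw [h3, intervalIntegral.integral_comp_add_left (fun y => y ^ 2), integral_pow]
    norm_num
  have h4 : ∀ w, 0 ≤ w → w ≤ d → ∫ y in (0 : ℝ)..w, (max 0 (d - y)) ^ 2 =
      (d ^ 3 - (d - w) ^ 3) / 3 := by
    intro w hw hwd
    have h3 : ∫ y in (0 : ℝ)..w, (max 0 (d - y)) ^ 2 = ∫ y in (0 : ℝ)..w, (d - y) ^ 2 := by
      apply intervalIntegral.integral_congr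
      intro t ht
      rw [uIcc_of_le hw] at ht
      simp only
      rw [max_eq_right (by linarith [ht.2])]
    rw [h3, intervalIntegral.integral_comp_sub_left (fun y => y ^ 2), integral_pow]
    norm_num
  rw [h1, h2]
  rcases le_total v d with h | h
  · rw [h4 v hv h, max_eq_right (by linarith)]
    apply le_of_eq
    ring
  · rw [← intervalIntegral.integral_add_adjacent_intervals (b := d)
      (c2.intervalIntegrable _ _) (c2.intervalIntegrable _ _), h4 d hd le_rfl,
      max_eq_left (by linarith)]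
    have h5 : ∫ y in d..v, (max 0 (d - y)) ^ 2 = ∫ y in d..v, (0 : ℝ) := by
      apply intervalIntegral.integral_congr
      intro t ht
      rw [uIcc_of_le h] at ht
      simp only
      rw [max_eq_left (by linarith [ht.1])]
      ring
    rw [h5]
    simp only [intervalIntegral.integral_const, smul_eq_mul, mul_zero, sub_self]
    apply le_of_eq
    ring

/-- The cubic inequality. -/
theorem cubic {d z v : ℝ} (hd : 0 ≤ d) (hz : 0 < z) (hdz : d ≤ z) (hv : 0 ≤ v) :
    ((d + v) ^ 3 - (max 0 (d - v)) ^ 3) / 3 ≤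
      d * (z + d) ^ 2 / (2 * z) * v + (z + d) ^ 2 * (2 * z - d) / (6 * z ^ 3) * v ^ 3 := by
  -- the case `d ≤ v`
  have key : ∀ v, 0 ≤ v → d ≤ v → (d + v) ^ 3 / 3 ≤
      d * (z + d) ^ 2 / (2 * z) * v + (z + d) ^ 2 * (2 * z - d) / (6 * z ^ 3) * v ^ 3 := by
    intro v hv hdv
    have e : d * (z + d) ^ 2 / (2 * z) * v + (z + d) ^ 2 * (2 * z - d) / (6 * z ^ 3) * v ^ 3 -
        (d + v) ^ 3 / 3 = (v - z) ^ 2 * (d * ((3 * z ^ 2 - d ^ 2) * v - 2 * z * d ^ 2)) /
          (6 * z ^ 3) := by
      field_simp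
      ring
    have h1 : 0 ≤ (3 * z ^ 2 - d ^ 2) * v - 2 * z * d ^ 2 := by
      have h2 : 0 ≤ 3 * z ^ 2 - d ^ 2 := by nlinarith
      have h3 : 0 ≤ (3 * z ^ 2 - d ^ 2) * (v - d) := mul_nonneg h2 (by linarith)
      have h4 : 0 ≤ d * ((3 * z + d) * (z - d)) :=
        mul_nonneg hd (mul_nonneg (by linarith) (by linarith))
      nlinarith
    have h5 : 0 ≤ (v - z) ^ 2 * (d * ((3 * z ^ 2 - d ^ 2) * v - 2 * z * d ^ 2)) /
          (6 * z ^ 3) := by positivity
    linarith
  rcases le_total v d with h | h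
  · rw [max_eq_right (by linarith)]
    set α := d * (z + d) ^ 2 / (2 * z) with hα
    set γ := (z + d) ^ 2 * (2 * z - d) / (6 * z ^ 3) with hγ
    have h1 : 0 ≤ α - 2 * d ^ 2 := by
      have : α - 2 * d ^ 2 = d * (z - d) ^ 2 / (2 * z) := by
        rw [hα]; field_simp; ring
      rw [this]; positivity
    have h2 := key d hd le_rfl
    have h3 : (d + v) ^ 3 / 3 - (d - v) ^ 3 / 3 = v * (2 * d ^ 2 + 2 * v ^ 2 / 3) := by ring
    rw [sub_div, h3]
    have h4 : 2 * d ^ 2 + 2 * v ^ 2 / 3 ≤ α + γ * v ^ 2 := by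
      rcases le_total (2 / 3) γ with h5 | h5
      · nlinarith [sq_nonneg v]
      · rcases hd.eq_or_lt with h6 | h6
        · have h7 : v = 0 := by linarith
          rw [h7]
          nlinarith
        · have h7 : 8 * d ^ 2 / 3 ≤ α + γ * d ^ 2 := by
            have h8 : d * (8 * d ^ 2 / 3) ≤ d * (α + γ * d ^ 2) := by nlinarith
            exact le_of_mul_le_mul_left h8 h6
          have h8 : v ^ 2 ≤ d ^ 2 := by nlinarith
          nlinarith
    calc v * (2 * d ^ 2 + 2 * v ^ 2 / 3) ≤ v * (α + γ * v ^ 2) := by gcongr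
      _ = α * v + γ * v ^ 3 := by ring
  · rw [max_eq_left (by linarith)]
    have := key v hv h
    simpa using this

/-- Expectation of `F`, first bound. -/
theorem expect_F_a {k : ℕ} (b : Fin k → ℝ) (d : ℝ) (hd : 0 ≤ d) :
    ∫ y, F d (∑ l, b l * y l) ∂(cube k) ≤ 2 * d ^ 2 + 2 / 3 * ∑ l, b l ^ 2 := by
  have h1 : ∫ y, F d (∑ l, b l * y l) ∂(cube k) ≤
      ∫ y, (2 * ((∑ l, b l * y l) ^ 2 + d ^ 2)) ∂(cube k) := by
    apply integral_mono
    · exact integrable_cube ((F_cont d).comp (by fun_prop))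
    · exact integrable_cube (by fun_prop)
    · intro y
      simp only
      unfold F
      set w := ∑ l, b l * y l
      have h2 : (max 0 (d + w)) ^ 2 ≤ (d + w) ^ 2 := by
        rcases le_total 0 (d + w) with h | h
        · rw [max_eq_right h]
        · rw [max_eq_left h]; nlinarith
      have h3 : (max 0 (d - w)) ^ 2 ≤ (d - w) ^ 2 := by
        rcases le_total 0 (d - w) with h | h
        · rw [max_eq_right h]
        · rw [max_eq_left h]; nlinarith
      nlinarith
  rw [integral_const_mul, cube_sq] at h1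
  linarith

/-- Expectation of `F`, second bound. -/
theorem expect_F_b {k : ℕ} (b : Fin k → ℝ) {d z : ℝ} (hd : 0 ≤ d) (hz : 0 < z) (hdz : d ≤ z)
    (hm : ∑ l, b l ^ 2 = z ^ 2) :
    ∫ y, F d (∑ l, b l * y l) ∂(cube k) ≤ (z + d) ^ 3 / (3 * z) := by
  set α := d * (z + d) ^ 2 / (2 * z) with hα
  set γ := (z + d) ^ 2 * (2 * z - d) / (6 * z ^ 3) with hγ
  set Q : ℝ → ℝ := fun y => α + 3 * γ * y ^ 2 - F d y with hQd
  have hFc := F_cont d
  have hQ : Good Q := by
    refine ⟨by fun_prop, ?_, ?_⟩
    · intro y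
      simp only [hQd]
      unfold F
      rw [show d + -y = d - y by ring, show d - -y = d + y by ring]
      ring
    · intro v hv
      have h1 : ∫ y in (0 : ℝ)..v, Q y = (α * v + γ * v ^ 3) - ∫ y in (0 : ℝ)..v, F d y := by
        simp only [hQd]
        rw [intervalIntegral.integral_sub, intervalIntegral.integral_add]
        · simp only [intervalIntegral.integral_const_mul, integral_pow,
            intervalIntegral.integral_const, smul_eq_mul]
          push_cast
          ring
        all_goals exact Continuous.intervalIntegrable (by fun_prop) _ _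
      rw [h1]
      have h2 := integral_F hd hv
      have h3 := cubic hd hz hdz hv
      linarith
  have hcube := hQ.cube b
  have hsplit : ∫ y, Q (∑ j, b j * y j) ∂(cube k) =
      (∫ y, (3 * γ) * ((∑ j, b j * y j) ^ 2 + 0) + α ∂(cube k)) -
        ∫ y, F d (∑ j, b j * y j) ∂(cube k) := by
    rw [← integral_sub]
    · congr 1
      ext y
      simp only [hQd]
      ring
    · exact integrable_cube (by fun_prop)
    · exact integrable_cube (hFc.comp (by fun_prop))
  rw [hsplit, integral_add (integrable_cube (by fun_prop)) (integrable_cube (by fun_prop)),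
    integral_const_mul, cube_sq, hm] at hcube
  simp only [integral_const, probReal_univ, smul_eq_mul] at hcube
  have e : 3 * γ * (z ^ 2 / 3 + 0) + 1 * α = (z + d) ^ 3 / (3 * z) := by
    rw [hγ, hα]; field_simp; ring
  rw [e] at hcube
  linarith

/-- Reduction to the expectation of `F`. -/
theorem prob_ge_F {n : ℕ} (a : Fin n → ℝ) (i j : Fin n) (hij : i ≠ j) (ha : ∑ l, a l ^ 2 = 1)
    {t : ℝ} (ht : 0 < t) (hi : a i ≠ 0) (hj : a j ≠ 0) :
    ∃ (k : ℕ) (b : Fin k → ℝ), ∑ l, b l ^ 2 = 1 - a i ^ 2 - a j ^ 2 ∧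
      1 - (∫ y, F (|a i| + |a j| - t) (∑ l, b l * y l) ∂(cube k)) / (8 * (|a i| * |a j|)) ≤
        prob a t := by
  obtain ⟨k, rfl⟩ : ∃ k, n = k + 1 := ⟨n - 1, by have := i.pos; omega⟩
  obtain ⟨j', rfl⟩ := Fin.exists_succAbove_eq (Ne.symm hij)
  obtain ⟨m, rfl⟩ : ∃ m, k = m + 1 := ⟨k - 1, by have := j'.pos; omega⟩
  have hp : 0 < |a i| := abs_pos.2 hi
  have hq : 0 < |a (i.succAbove j')| := abs_pos.2 hj
  refine ⟨m, fun l => a (i.succAbove (j'.succAbove l)), ?_, ?_⟩
  · rw [← ha, Fin.sum_univ_succAbove _ i, Fin.sum_univ_succAbove _ j']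
    ring
  · rw [prob_split a i, cube_split_cont j' _ _ (A_ind_cont hp ht.le)]
    set p := |a i|
    set q := |a (i.succAbove j')| with hqd
    have hF : ∀ y : Fin m → ℝ, 1 - F (p + q - t)
        (∑ l, a (i.succAbove (j'.succAbove l)) * y l) / (8 * (p * q)) ≤
        A (a (i.succAbove j')) (A p (ind t)) (∑ l, a (i.succAbove (j'.succAbove l)) * y l) := by
      intro y
      rw [← A_abs_b (a (i.succAbove j'))]
      exact two_ge hp hq ht.le _
    have hFc := F_cont (p + q - t)
    have hI1 : Integrable (fun y : Fin m → ℝ => F (p + q - t)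
        (∑ l, a (i.succAbove (j'.succAbove l)) * y l) / (8 * (p * q))) (cube m) :=
      integrable_cube ((hFc.comp (by fun_prop)).div_const _)
    calc 1 - (∫ y, F (p + q - t) (∑ l, a (i.succAbove (j'.succAbove l)) * y l) ∂(cube m)) /
          (8 * (p * q)) = ∫ y, (1 - F (p + q - t)
            (∑ l, a (i.succAbove (j'.succAbove l)) * y l) / (8 * (p * q))) ∂(cube m) := by
          rw [integral_sub (integrable_const _) hI1, integral_div]
          simp
      _ ≤ _ := by
          apply integral_mono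
          · exact (integrable_const _).sub hI1
          · exact integrable_cube ((A_cont _ (A_ind_cont hp ht.le)).comp (by fun_prop))
          · exact hF

end ProbTwo

open ProbTwo in
theorem prob_two {n : ℕ} (a : Fin n → ℝ) (i j : Fin n) (hij : i ≠ j) (ha : ∑ l, a l ^ 2 = 1)
    {t : ℝ} (ht : 0 < t) (hi : a i ≠ 0) (hj : a j ≠ 0) (hs : t ≤ |a i| + |a j|) :
    1 - (3 * (|a i| + |a j| - t) ^ 2 + (1 - a i ^ 2 - a j ^ 2)) / (12 * (|a i| * |a j|)) ≤ prob a t ∧
    ∀ z : ℝ, 0 < z → z ^ 2 = 1 - a i ^ 2 - a j ^ 2 →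
      1 - (z + (|a i| + |a j| - t)) ^ 3 / (24 * (|a i| * |a j|) * z) ≤ prob a t := by
  obtain ⟨k, b, hb, hF⟩ := prob_ge_F a i j hij ha ht hi hj
  have hp : 0 < |a i| := abs_pos.2 hi
  have hq : 0 < |a j| := abs_pos.2 hj
  set p := |a i|
  set q := |a j|
  set d := p + q - t with hd
  have hd0 : 0 ≤ d := by rw [hd]; linarith
  have h1 := expect_F_a b d hd0
  rw [hb] at h1
  set m := 1 - a i ^ 2 - a j ^ 2 with hm
  have hA : 1 - (3 * d ^ 2 + m) / (12 * (p * q)) ≤ prob a t := by
    refine le_trans ?_ hF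
    have h2 : (∫ y, F d (∑ l, b l * y l) ∂(cube k)) / (8 * (p * q)) ≤
        (2 * d ^ 2 + 2 / 3 * m) / (8 * (p * q)) := by gcongr
    have h3 : (2 * d ^ 2 + 2 / 3 * m) / (8 * (p * q)) = (3 * d ^ 2 + m) / (12 * (p * q)) := by
      field_simp
      ring
    linarith
  refine ⟨hA, ?_⟩
  intro z hz hzm
  rcases le_total d z with h | h
  · refine le_trans ?_ hF
    have h2 := expect_F_b b hd0 hz h (by rw [hb, hzm])
    have h3 : (∫ y, F d (∑ l, b l * y l) ∂(cube k)) / (8 * (p * q)) ≤
        ((z + d) ^ 3 / (3 * z)) / (8 * (p * q)) := by gcongr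
    have h4 : ((z + d) ^ 3 / (3 * z)) / (8 * (p * q)) = (z + d) ^ 3 / (24 * (p * q) * z) := by
      field_simp
      ring
    linarith
  · refine le_trans ?_ hA
    rw [← hzm]
    have h3 : (3 * d ^ 2 + z ^ 2) / (12 * (p * q)) ≤ (z + d) ^ 3 / (24 * (p * q) * z) := by
      rw [div_le_div_iff₀ (by positivity) (by positivity)]
      have h4 : 0 ≤ (d - z) ^ 3 := pow_nonneg (by linarith) 3
      have h5 : (3 * d ^ 2 + z ^ 2) * (24 * (p * q) * z) + (d - z) ^ 3 * (12 * (p * q)) =
          (z + d) ^ 3 * (12 * (p * q)) := by ring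
      have h6 : 0 ≤ (d - z) ^ 3 * (12 * (p * q)) := by positivity
      linarith
    linarith

end Pool.Agent.Helper89.FA
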